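import Pool.Agent.Helper3.WT.Defs

/-! Project WT: pieces B2 and B6. -/

set_option autoImplicit false

namespace Pool.Agent.Helper28.WT

open Finset
open Pool.Agent.Helper3.WT

section sys

variable (σ : Sys)

theorem p_pos (k : ℕ) : 0 < σ.p k :=
  lt_of_le_of_lt (Nat.zero_le _) (σ.comp k).lt_p

theorem Q_pos (k m : ℕ) : 0 < (2 * σ.p k) ^ m :=
  Nat.pow_pos (Nat.mul_pos (by norm_num) (p_pos σ k))

theorem W_pos (k : ℕ) : 0 < σ.W k := by
  unfold Sys.W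
  exact Finset.prod_pos fun j _ => Q_pos σ j _

theorem W_succ (k : ℕ) : σ.W (k + 1) = σ.W k * (2 * σ.p k) ^ (2 * σ.M k) := by
  unfold Sys.W
  exact Finset.prod_range_succ _ _

theorem stack_lt {l s W Q : ℕ} (hl : 2 * l < W) (hs : 2 * s < Q) :
    2 * (l + W * s) < W * Q := by
  have h1 : 2 * s + 1 ≤ Q := hs
  have h2 : W * (2 * s + 1) ≤ W * Q := Nat.mul_le_mul_left _ h1
  have h3 : 2 * (l + W * s) = 2 * l + W * (2 * s) := by ring
  have h4 : W * (2 * s + 1) = W * (2 * s) + W := by ring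
  omega

theorem low_lt (k : ℕ) : ∀ l ∈ σ.Low k, 2 * l < σ.W k := by
  induction k with
  | zero =>
    intro l hl
    have h0 : l = 0 := hl
    subst h0
    exact W_pos σ 0
  | succ k ih =>
    intro l hl
    obtain ⟨l', hl', t, ht, rfl⟩ := hl
    rw [W_succ]
    exact stack_lt (ih l' hl') ((σ.comp k).T_lt t ht)

theorem part_lt {k N : ℕ} (h2 : 2 ≤ N) (hN : N ≤ σ.M k) : ∀ a ∈ σ.Part k N,
    2 * a < σ.W k * (2 * σ.p k) ^ (2 * N) := by
  rintro a ⟨l, hl, s, hs, rfl⟩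
  exact stack_lt (low_lt σ k l hl) ((σ.comp k).S_lt N h2 hN s hs)

theorem part_ge {k N : ℕ} (h2 : 2 ≤ N) (hN : N ≤ σ.M k) : ∀ a ∈ σ.Part k N,
    σ.W k * (2 * σ.p k) ^ (2 * (N - 1)) ≤ a := by
  rintro a ⟨l, hl, s, hs, rfl⟩
  exact le_trans (Nat.mul_le_mul_left _ ((σ.comp k).S_ge N h2 hN s hs)) (Nat.le_add_left _ _)

theorem W_mono {k K : ℕ} (h : k ≤ K) : σ.W k ≤ σ.W K := by
  induction K, h using Nat.le_induction with
  | base => exact le_rfl
  | succ K _ ih =>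
    rw [W_succ]
    exact le_trans ih (Nat.le_mul_of_pos_right _ (Q_pos σ K _))

theorem part_lt_W {k N K : ℕ} (h2 : 2 ≤ N) (hN : N ≤ σ.M k) (hk : k < K) : ∀ a ∈ σ.Part k N,
    2 * a < σ.W K := by
  intro a ha
  have h1 := part_lt σ h2 hN a ha
  have h3 : (2 * σ.p k) ^ (2 * N) ≤ (2 * σ.p k) ^ (2 * σ.M k) :=
    Nat.pow_le_pow_right (Nat.mul_pos (by norm_num) (p_pos σ k)) (by omega)
  have h4 : σ.W k * (2 * σ.p k) ^ (2 * N) ≤ σ.W (k + 1) := by
    rw [W_succ]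
    exact Nat.mul_le_mul_left _ h3
  exact lt_of_lt_of_le h1 (le_trans h4 (W_mono σ hk))

/-- cardinality of a stack -/
theorem stack_card {X U : Set ℕ} {W B a b : ℕ} (hX : ∀ x ∈ X, x < W) (hU : ∀ u ∈ U, u < B)
    (ha : a ≤ X.ncard) (hb : b ≤ U.ncard) :
    a * b ≤ ({m | ∃ x ∈ X, ∃ u ∈ U, m = x + W * u} : Set ℕ).ncard := by
  have hXf : X.Finite := (Set.finite_Iio W).subset hX
  have hUf : U.Finite := (Set.finite_Iio B).subset hU
  have heq : ({m | ∃ x ∈ X, ∃ u ∈ U, m = x + W * u} : Set ℕ) =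
      (fun q : ℕ × ℕ => q.1 + W * q.2) '' (X ×ˢ U) := by
    ext m
    constructor
    · rintro ⟨x, hx, u, hu, rfl⟩
      exact ⟨(x, u), ⟨hx, hu⟩, rfl⟩
    · rintro ⟨⟨x, u⟩, ⟨hx, hu⟩, rfl⟩
      exact ⟨x, hx, u, hu, rfl⟩
  have hinj : Set.InjOn (fun q : ℕ × ℕ => q.1 + W * q.2) (X ×ˢ U) := by
    rintro ⟨x, u⟩ ⟨hx, hu⟩ ⟨y, v⟩ ⟨hy, hv⟩ h
    have hx' : x < W := hX x hx
    have hy' : y < W := hX y hy
    have h' : x + W * u = y + W * v := h
    have h1 : (x + W * u) % W = (y + W * v) % W := by rw [h']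
    have h2 : (x + W * u) / W = (y + W * v) / W := by rw [h']
    have hW : 0 < W := by omega
    rw [Nat.add_mul_mod_self_left, Nat.add_mul_mod_self_left, Nat.mod_eq_of_lt hx',
      Nat.mod_eq_of_lt hy'] at h1
    rw [Nat.add_mul_div_left _ _ hW, Nat.add_mul_div_left _ _ hW, Nat.div_eq_of_lt hx',
      Nat.div_eq_of_lt hy'] at h2
    have h3 : u = v := by omega
    rw [h1, h3]
  rw [heq, hinj.ncard_image, Set.ncard_prod]
  exact Nat.mul_le_mul ha hb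

theorem low_card (k : ℕ) : ∏ j ∈ range k, σ.p j ^ (σ.M j - 1) ≤ (σ.Low k).ncard := by
  induction k with
  | zero =>
    have h : (σ.Low 0) = ({0} : Set ℕ) := rfl
    rw [h, Set.ncard_singleton]
    simp
  | succ k ih =>
    rw [Finset.prod_range_succ]
    exact stack_card (W := σ.W k) (B := (2 * σ.p k) ^ (2 * σ.M k))
      (fun x hx => by have := low_lt σ k x hx; omega)
      (fun u hu => by have := (σ.comp k).T_lt u hu; omega) ih (σ.comp k).T_card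

theorem part_card {k N : ℕ} (h2 : 2 ≤ N) (hN : N ≤ σ.M k) :
    (∏ j ∈ range k, σ.p j ^ (σ.M j - 1)) * σ.p k ^ (N - 2) ≤ (σ.Part k N).ncard :=
  stack_card (W := σ.W k) (B := (2 * σ.p k) ^ (2 * N))
    (fun x hx => by have := low_lt σ k x hx; omega)
    (fun u hu => by have := (σ.comp k).S_lt N h2 hN u hu; omega) (low_card σ k)
    ((σ.comp k).S_card N h2 hN)

end sys

end Pool.Agent.Helper28.WT
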